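import Pool.Agent.N802.X.Low
import Pool.Agent.N802.U.Zeta

/-!
# Distinct zeros and Dirichlet polynomials
-/

open Complex Filter Topology Set MeasureTheory
open scoped BigOperators ComplexConjugate

namespace Pool.Agent.N802.X

open H370 TC TH803UC Pool.Agent.N802.U Pool.Agent.N802 Pool.Agent.N845.U2

lemma cd_nonneg (s : ℂ) : 0 ≤ cd s := by
  unfold cd
  split_ifs <;> norm_num

lemma cd_le {F : ℂ → ℂ} (hF : GoodL F) (s : ℂ) (_h0 : 0 < s.re) (_h1 : s.re < 1) (h2 : 1 < s.im)
    (h3 : F s = 0) : cd s ≤ mult F s := by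
  have h4 : 1 ≤ mult F s := Loc.mult_pos' hF (by linarith) h3
  have h5 : (1 : ℝ) ≤ mult F s := by exact_mod_cast h4
  unfold cd
  split_ifs
  · exact h5
  · linarith

/-- distinct zeros, Gaussian weights -/
theorem core_dist {F : ℂ → ℂ} (hF : GoodL F) (hD : Dens F) : S_coreC F 0.83625 cd := by
  intro ε hε hε1
  refine core_cps (win kern) sq pl gsq (ms2 ch gsq) (fm2 ch) hF hD (ef hF) hε hε1
    (Q := fun T U1 U2 h S r τ H => (0.83625 - ε) * (mr H S r * (h * Real.log T / Real.pi)) ≤
    (∫ t in (T + Real.log T)..(2 * T - Real.log T), rh τ H S r t * cnt (Zf F U1 U2) cd h t))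
    fun T U1 U2 h S r τ H κ CD CE CZ CN Cf CM η c2 δ G w Gp gp o => ?_
  have hd := o.hd
  have hL := hd.hL100
  have hLpos : 0 < Real.log T := by linarith
  have hη := hd.hη
  have hη10 := hd.hη10
  have h0 := hd.hh0
  have hT10 := hd.hT10
  have hlA : Real.log (Real.log T) ≤ η / 1000 * xp h T := hd.hlA
  have hU11 : (1 : ℝ) ≤ U1 := by linarith [o.hU1]
  have hc20 : 0 < c2 := by
    have := hd.hκ
    rw [hd.hc2]; positivity
  have hH0 : 0 < H := lt_of_lt_of_le (by positivity) o.hH
  have hw1 := w1_nonneg S r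
  have hπ := Real.pi_pos
  have h1 := one_gen o (x := fun t => 2 * x2 F U1 U2 h t) (k := 1 / (1 - η)) (q := 1.6725) (by
      have := (cnt_int (rh_cont τ H S r) (Zf F U1 U2) cd h (T + Real.log T)
        (2 * T - Real.log T)).const_mul 2
      refine this.congr ?_
      intro t _
      simp only [x2_cnt]
      ring)
    (fun t => point2 (U1 := U1) (U2 := U2) hF hU11 o.hTw hη hη10 hL hlA
      (by linarith [hd.hh1]) h0.le (Λ := (1 - 4 * η) * Real.log T)
      (mul_nonneg (by linarith) hLpos.le) (by nlinarith) t)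
    (fun U P1 P2 P3 P4 P5 hU a1 a2 a3 a4 a5 =>
      final_num2 hU hε hε1 hη hd.hηε Pool.Agent.W354.ZP.cMTinv_sharp a1 a2 a3 a4 a5)
  have e1 : (∫ t in (T + Real.log T)..(2 * T - Real.log T), rh τ H S r t * (2 * x2 F U1 U2 h t)) =
      2 * ∫ t in (T + Real.log T)..(2 * T - Real.log T),
        rh τ H S r t * cnt (Zf F U1 U2) cd h t := by
    rw [← intervalIntegral.integral_const_mul]
    refine intervalIntegral.integral_congr fun t _ => ?_
    simp only [x2_cnt]
    ring
  rw [e1] at h1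
  have hU0 : 0 ≤ mr H S r * (h * Real.log T / Real.pi) := by
    unfold mr
    positivity
  have hεU : 0 ≤ ε * (mr H S r * (h * Real.log T / Real.pi)) := mul_nonneg hε.le hU0
  linarith

theorem sharp_dist {F : ℂ → ℂ} (hF : GoodL F) (hD : Dens F) : S_sharpC F 0.83625 cd :=
  sharpC hF (by norm_num) (by norm_num) cd_nonneg (cd_le hF) (core_dist hF hD)

theorem direct_dist {F : ℂ → ℂ} (hF : GoodL F) (hD : Dens F) : S_directC F 0.83625 cd :=
  directC hF cd_nonneg (cd_le hF) (sharp4_good hF hD) (sharp_dist hF hD)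

end Pool.Agent.N802.X
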