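import Pool.Agent.N802.U.Core3

/-! # The core theorem for general conclusions -/

open Complex Filter Topology Set MeasureTheory
open scoped BigOperators ComplexConjugate

namespace Pool.Agent.N802.X

open H370 TC TH803UC Pool.Agent.N802.U Pool.Agent.N802

/-- the data for one height, one window, one Dirichlet polynomial and one Gaussian weight -/
structure Out (F : ℂ → ℂ) (ε T h : ℝ) (U1 U2 : ℝ) (S : Finset ℕ) (r : ℕ → ℂ) (τ H : ℝ)
    (κ CD CE CZ CN Cf CM η c2 δ : ℝ) (G : ℂ → ℂ) (w : ℝ → ℂ) (Gp : ℂ → ℂ) (gp : ℝ → ℂ) : Prop where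
  hd : Dt3 κ CD CE CZ CN Cf CM ε η c2 δ T (Real.log T) (Real.log (Real.log T)) h
      (η / 1000 * xp h T) (xp h T)
  hU1 : T ≤ U1
  hU2' : U2 ≤ 2 * T
  hH : T * Real.exp (-(c2 * xp h T)) ≤ H
  hτ1 : T + Real.log T * (H + 1) ≤ τ
  hτ2 : τ ≤ 2 * T - Real.log T * (H + 1)
  hR : ∀ t, ‖RP S r t‖ ^ 2 ≤ Real.exp (c2 * xp h T) * w1 S r
  hTw : Two η (Real.log T) h (η / 1000 * xp h T) G w Gp gp
  hone : ∀ z : ℂ, |z.im| * Real.log T ≤ η / 1000 * xp h T → ‖G z‖ ≤ 1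
  hZ : ∀ t : ℝ, Zg F U1 U2 t ≤ CZ * Real.log T
  hN : (NN F U1 U2 : ℝ) ≤ CN * (T * Real.log T)
  hD : ∑ s ∈ Zf F U1 U2, (mult F s : ℝ) * Real.exp (κ * (|(zz s).im| * Real.log T)) ≤
    CD * (T * Real.log T)
  hM : ∫ t : ℝ, rh τ H S r t ≤ 2 * mr H S r
  P1 : |(∫ t in (T + Real.log T)..(2 * T - Real.log T), rh τ H S r t *
    (SS F U1 U2 (fun z => G z ^ 2) 0 t).re) - mr H S r * Real.log T * (gs w 0).re| ≤
      ε / 50 * (mr H S r * (h * Real.log T / Real.pi))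
  P2 : |(∫ t in (T + Real.log T)..(2 * T - Real.log T), rh τ H S r t * (SS F U1 U2 Gp 0 t).re) -
      mr H S r * Real.log T * (gs gp 0).re| ≤ ε / 50 * (mr H S r * (h * Real.log T / Real.pi))
  A3 : ∫ t in (T + Real.log T)..(2 * T - Real.log T), rh τ H S r t *
      (2 * ∫ α in (0 : ℝ)..1, Rf α * ‖SS F U1 U2 (fun z => G z ^ 2)
        ((1 - 4 * η) * Real.log T * α) t‖ ^ 2) ≤
      ((1 + η) * (cMTinv + ε / 10) + ε / 100) * (mr H S r * (h * Real.log T / Real.pi))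

theorem core_cps (hwin : S_win) (hsq : S_sq) (hpl : S_pl) (hgs : S_gs) (hms : S_ms2) (hfm : S_fm2)
    {F : ℂ → ℂ} (hF : GoodL F) (hD : Dens F) (hef : S_ef F) {ε : ℝ} (hε : 0 < ε) (hε1 : ε < 1)
    {Q : (T U1 U2 h : ℝ) → Finset ℕ → (ℕ → ℂ) → (τ H : ℝ) → Prop}
    (hQ : ∀ (T U1 U2 h : ℝ) (S : Finset ℕ) (r : ℕ → ℂ) (τ H : ℝ)
      (κ CD CE CZ CN Cf CM η c2 δ : ℝ) (G : ℂ → ℂ) (w : ℝ → ℂ) (Gp : ℂ → ℂ) (gp : ℝ → ℂ),
      Out F ε T h U1 U2 S r τ H κ CD CE CZ CN Cf CM η c2 δ G w Gp gp → Q T U1 U2 h S r τ H) :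
    ∃ δ T0 : ℝ, 0 < δ ∧ 10 ≤ T0 ∧ ∀ T : ℝ, T0 ≤ T →
    ∃ U1 U2 : ℝ, T ≤ U1 ∧ U1 ≤ T + 1 ∧ 2 * T - 1 ≤ U2 ∧ U2 ≤ 2 * T ∧
    ∀ h : ℝ, Real.log (Real.log T) ^ 3 / (δ * Real.log T) ≤ h → h ≤ δ →
    ∀ S : Finset ℕ, Len S (T ^ δ) → ∀ r : ℕ → ℂ,
    (∀ t, ‖RP S r t‖ ^ 2 ≤ Real.exp (δ * xp h T) * w1 S r) →
    ∀ τ H : ℝ, T * Real.exp (-(δ * xp h T)) ≤ H →
      T + Real.log T * (H + 1) ≤ τ → τ ≤ 2 * T - Real.log T * (H + 1) →
    Q T U1 U2 h S r τ H := by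
  have hπ := Real.pi_pos
  have hπ3 := Real.pi_gt_three
  obtain ⟨κ, CD, TD, hκ, hCD, hTD, hD⟩ := hD
  obtain ⟨a, CE, ha, hCE, hef⟩ := hef
  obtain ⟨CZ, hCZ, hZ⟩ := Zg_le hF
  obtain ⟨CN, hCN, hN⟩ := NN_crude hF
  obtain ⟨η1, hη10, hη11, hms⟩ := hms (ε / 10) (by positivity)
  obtain ⟨η, hη, hηη1, hη10', hηκ, hηε⟩ : ∃ η : ℝ, 0 < η ∧ η ≤ η1 ∧ η ≤ 1 / 10 ∧ η ≤ κ / 4 ∧
      η ≤ ε / 100 := by
    refine ⟨min (min η1 (1 / 10)) (min (κ / 4) (ε / 100)), ?_, ?_, ?_, ?_, ?_⟩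
    · exact lt_min (lt_min hη10 (by norm_num)) (lt_min (by positivity) (by positivity))
    · exact (min_le_left _ _).trans (min_le_left _ _)
    · exact (min_le_left _ _).trans (min_le_right _ _)
    · exact (min_le_right _ _).trans (min_le_left _ _)
    · exact (min_le_right _ _).trans (min_le_right _ _)
  obtain ⟨δ1, T1, hδ1, hT1, hms⟩ := hms η hη hηη1
  obtain ⟨δ2, T2, Cf, hδ2, hT2, hCf, hfm⟩ := hfm η hη (by linarith)
  obtain ⟨L0, hL0, htwo⟩ := two4 hwin hsq hpl hgs η hη hη10'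
  obtain ⟨T3, hT3, hef⟩ := hef η hη (by linarith)
  obtain ⟨T4, hT4, hmass⟩ := rh_mass
  obtain ⟨L1, hL1, hpar⟩ := params3 η hη
  obtain ⟨c2, hc2⟩ : ∃ c2 : ℝ, c2 = κ * η / 4000 := ⟨_, rfl⟩
  have hc20 : 0 < c2 := by rw [hc2]; positivity
  have hR0 : 0 ≤ Rf 0 := Rf_nonneg 0
  obtain ⟨δ, hδ0, hδ1', hδ2', hδ8, hδη, hδc⟩ : ∃ δ : ℝ, 0 < δ ∧ δ ≤ δ1 ∧ δ ≤ δ2 ∧ δ ≤ 1 / 8 ∧
      δ ≤ η / 1000 ∧ 5 * δ ≤ c2 := by
    refine ⟨min (min (min δ1 δ2) (1 / 8)) (min (η / 1000) (c2 / 5)), ?_, ?_, ?_, ?_, ?_, ?_⟩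
    · exact lt_min (lt_min (lt_min hδ1 hδ2) (by norm_num)) (lt_min (by positivity) (by positivity))
    · exact (min_le_left _ _).trans ((min_le_left _ _).trans (min_le_left _ _))
    · exact (min_le_left _ _).trans ((min_le_left _ _).trans (min_le_right _ _))
    · exact (min_le_left _ _).trans (min_le_right _ _)
    · exact (min_le_right _ _).trans (min_le_left _ _)
    · have : min (min (min δ1 δ2) (1 / 8)) (min (η / 1000) (c2 / 5)) ≤ c2 / 5 :=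
        (min_le_right _ _).trans (min_le_right _ _)
      linarith
  obtain ⟨CM, hCM⟩ : ∃ CM : ℝ, CM = CE + 1 + 200 * Real.pi * Cf ^ 2 / ε := ⟨_, rfl⟩
  have hCM0 : 0 < CM := by rw [hCM]; positivity
  have ev : ∀ᶠ T : ℝ in atTop, max L0 L1 ≤ Real.log T ∧ Real.log T ≤ T / 4 ∧
      50 * Real.exp (c2 * Real.log T + Real.log T - Real.log T ^ 2 / 4) ≤ 1 ∧
      c2 / δ ≤ Real.log (Real.log T) ∧
      (∀ h : ℝ, Real.log (Real.log T) ^ 3 / (δ * Real.log T) ≤ h →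
      2 * CM ≤ ε / 4 / 100 * (h * Real.log T / Real.pi) ∧
      (1 + 1 / η) * (4 * Rf 0 * CM ^ 2) ≤ ε / 4 / 100 * Real.log T ∧
      80 * CD * Real.log T ^ 5 * Real.exp (-(c2 * (h * Real.log T /
        Real.log (Real.log T) ^ 2))) ≤ ε / 4 / 100 * (h * Real.log T / Real.pi) ∧
      (48 / Real.log T ^ 3 * (CZ * Real.log T) +
        4 * (CN * (Real.exp (Real.log T) * Real.log T)) * tau (Real.log T)) * 2 ≤
        ε / 4 / 100 * (h * Real.log T / Real.pi)) := by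
    have e1 := Real.tendsto_log_atTop.eventually_ge_atTop (max L0 L1)
    have e2 := Real.tendsto_log_atTop.eventually
      (small3 (ε := ε / 4) (by positivity) hη hδ0 hδc hCM0 hCD hCZ hCN hR0)
    have e3 : ∀ᶠ T : ℝ in atTop, Real.log T ≤ T / 4 := by
      have h := Real.isLittleO_log_id_atTop.bound (show (0 : ℝ) < 1 / 4 by norm_num)
      filter_upwards [h, eventually_ge_atTop 1] with T hT hT1
      simp only [id] at hT
      rw [Real.norm_of_nonneg (Real.log_nonneg hT1), Real.norm_of_nonneg (by linarith)] at hT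
      linarith
    have e4 := Real.tendsto_log_atTop.eventually (ev_f c2)
    have e5 := (Real.tendsto_log_atTop.comp Real.tendsto_log_atTop).eventually_ge_atTop (c2 / δ)
    exact e1.and (e3.and (e4.and (e5.and e2)))
  obtain ⟨T5, hT5⟩ := eventually_atTop.1 ev
  refine ⟨δ, max (max (max T1 T2) (max T3 T4)) (max TD T5), hδ0,
    hT1.trans ((le_max_left _ _).trans ((le_max_left _ _).trans (le_max_left _ _))), fun T hT => ?_⟩
  have gT1 : T1 ≤ T := ((le_max_left _ _).trans ((le_max_left _ _).trans (le_max_left _ _))).trans hT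
  have gT2 : T2 ≤ T := ((le_max_right _ _).trans ((le_max_left _ _).trans (le_max_left _ _))).trans hT
  have gT3 : T3 ≤ T := ((le_max_left _ _).trans ((le_max_right _ _).trans (le_max_left _ _))).trans hT
  have gT4 : T4 ≤ T := ((le_max_right _ _).trans ((le_max_right _ _).trans (le_max_left _ _))).trans hT
  have gTD : TD ≤ T := ((le_max_left _ _).trans (le_max_right _ _)).trans hT
  have gT5 : T5 ≤ T := ((le_max_right _ _).trans (le_max_right _ _)).trans hT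
  obtain ⟨hLL, hLT, s5, s6, hsm⟩ := hT5 T gT5
  have hT10 : 10 ≤ T := hT1.trans gT1
  have hT0 : 0 < T := by linarith
  rw [Real.exp_log hT0] at hsm
  obtain ⟨U1, U2, hU1, hU1', hU2, hU2', hef⟩ := hef T gT3
  refine ⟨U1, U2, hU1, hU1', hU2, hU2', fun h hh1 hh2 S hS r hR τ H hH hτ1 hτ2 => ?_⟩
  obtain ⟨-, hl100, -, hL100⟩ := hpar (Real.log T) ((le_max_right _ _).trans hLL)
  have hLpos : 0 < Real.log T := by linarith
  have hlpos : 0 < Real.log (Real.log T) := by linarith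
  have hh1' : Real.log (Real.log T) ^ 3 / (η / 1000 * Real.log T) ≤ h := by
    refine le_trans ?_ hh1
    gcongr
  have hhη : h ≤ η / 1000 := hh2.trans hδη
  obtain ⟨hh0, hlA⟩ := par_A hη hL100 hl100 hh1'
  obtain ⟨G, w, Gp, gp, hTw, hone⟩ := htwo (Real.log T) ((le_max_left _ _).trans hLL) h hh1' hhη
  obtain ⟨s1, s2, s3, s4⟩ := hsm h hh1
  have hh1b : h ≤ 1 := by linarith
  have hxe : xp h T = h * Real.log T / Real.log (Real.log T) ^ 2 := rfl
  have hx0 : 0 ≤ xp h T := by rw [hxe]; positivity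
  have hxl : xp h T ≤ Real.log T / Real.log (Real.log T) := by
    rw [hxe]
    calc h * Real.log T / Real.log (Real.log T) ^ 2 ≤ 1 * Real.log T / Real.log (Real.log T) := by
          have h1 : Real.log (Real.log T) ≤ Real.log (Real.log T) ^ 2 := by
            rw [sq]
            exact le_mul_of_one_le_left hlpos.le (by linarith)
          gcongr
      _ = _ := by rw [one_mul]
  have hxL : xp h T ≤ Real.log T := hxl.trans (div_le_self hLpos.le (by linarith))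
  have hd : Dt3 κ CD CE CZ CN Cf CM ε η c2 δ T (Real.log T) (Real.log (Real.log T)) h
      (η / 1000 * xp h T) (xp h T) :=
    ⟨hε, hε1, hκ, hCD, hCE, hCZ, hCN, hCf, hη, hη10', hηκ, hηε, hδ0, hc2, hCM, rfl, rfl, rfl,
      hx0, hxL, rfl, hL100, hl100, hlA, hh0, hh1b, hT10, hLT, s5, s1, s2, s3, s4⟩
  have hT1' : (1 : ℝ) ≤ T := by linarith
  have hδc' : δ * xp h T ≤ c2 * xp h T := mul_le_mul_of_nonneg_right (by linarith) hx0
  have hw1 := w1_nonneg S r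
  have hR' : ∀ t, ‖RP S r t‖ ^ 2 ≤ Real.exp (c2 * xp h T) * w1 S r := by
    intro t
    refine (hR t).trans ?_
    gcongr
  have hH' : T * Real.exp (-(c2 * xp h T)) ≤ H := by
    refine le_trans ?_ hH
    gcongr
  have hwd := width3 hT0 rfl hLpos (by linarith : 1 ≤ Real.log (Real.log T)) hδ0 s6 hxl hc20 hH'
  have hS1 : Len S (T ^ δ1) := Len_mono hS (Real.rpow_le_rpow_of_exponent_le hT1' hδ1')
  have hS2 : Len S (T ^ δ2) := Len_mono hS (Real.rpow_le_rpow_of_exponent_le hT1' hδ2')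
  have hS3 : Len S (T ^ (1 / 8 : ℝ)) := Len_mono hS (Real.rpow_le_rpow_of_exponent_le hT1' hδ8)
  have hM := hmass T gT4 S hS3 r τ H (by
    have := hwd (1 / 8) hδ8
    norm_num at this ⊢
    exact this)
  have hW0 : ∀ x : ℝ, ((fun z => G z ^ 2) (x : ℂ)).im = 0 := by
    intro x
    simp only
    rw [sq_re hTw.cj x, Complex.ofReal_im]
  have hηL : 0 < η * Real.log T := by positivity
  have hηL1 : η * Real.log T ≤ (1 - 2 * η) * Real.log T := by
    apply mul_le_mul_of_nonneg_right _ hLpos.le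
    linarith
  have hηL2 : η * Real.log T ≤ Real.log T := by
    calc η * Real.log T ≤ 1 * Real.log T := by
          apply mul_le_mul_of_nonneg_right _ hLpos.le
          linarith
      _ = _ := one_mul _
  have hq0 : 0 ≤ q2 w := integral_nonneg fun v => sq_nonneg _
  have hqp0 : 0 ≤ q2 gp := integral_nonneg fun v => sq_nonneg _
  have hqh : q2 w ≤ h := by
    refine hTw.q.trans ?_
    exact div_le_self hh0.le (by linarith)
  have hab : T + Real.log T ≤ 2 * T - Real.log T := by linarith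
  have hH0 : 0 < H := lt_of_lt_of_le (by positivity) hH
  have hm0 : 0 ≤ mr H S r := by unfold mr; positivity
  have P1 := first3 (U1 := U1) (U2 := U2) hd hH' hτ1 hτ2 hR' ha hTw.bw hq0 hqh
    (fun t ht1 ht2 => hef _ _ _ hTw.bw 0 t (by rw [abs_zero, zero_add]; exact hηL1) ht1 ht2)
    (hfm T gT2 a ha S hS2 r _ _ _ hTw.bw hηL hηL2 τ H (hwd δ2 hδ2')) hM
  have P2 := first3 (U1 := U1) (U2 := U2) hd hH' hτ1 hτ2 hR' ha hTw.bwp hqp0 hTw.qp
    (fun t ht1 ht2 => hef _ _ _ hTw.bwp 0 t (by rw [abs_zero, zero_add]; linarith) ht1 ht2)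
    (hfm T gT2 a ha S hS2 r _ _ _ hTw.bwp (by positivity) (by linarith) τ H (hwd δ2 hδ2')) hM
  have P3 := en_use2 (F := F) (U1 := U1) (U2 := U2) (rh_cont τ H S r) (rh_nonneg τ H S r)
    (rh_intg (τ := τ) hH0 S r) hab hTw.bw (a := a)
    (X := ⌊T ^ (1 - η)⌋₊) (C := CE) (η := η) (Λ := (1 - 4 * η) * Real.log T) hη
    (fun α hα t ht1 ht2 => hef _ _ _ hTw.bw ((1 - 4 * η) * Real.log T * α) t (by
      have h4 : 0 ≤ 1 - 4 * η := by linarith
      rw [abs_of_nonneg (by have := hα.1; positivity)]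
      have h1 : (1 - 4 * η) * Real.log T * α ≤ (1 - 4 * η) * Real.log T * 1 := by
        apply mul_le_mul_of_nonneg_left hα.2
        positivity
      nlinarith) ht1 ht2) hM
  have P3' := hms T gT1 a ha S hS1 r (η * Real.log T) _ _ hTw.bw hηL le_rfl hW0 τ H (hwd δ1 hδ1')
  have A3 := P3.trans (enb hη hCE hε hLpos hm0 hh0 hq0 hTw.q rfl hCM s2 P3')
  have hD1 : ∑ s ∈ Zf F U1 U2, (mult F s : ℝ) * Real.exp (κ * (|(zz s).im| * Real.log T)) ≤
      CD * (T * Real.log T) := by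
    refine le_trans ?_ (hD T gTD)
    exact Finset.sum_le_sum_of_subset_of_nonneg (TH803TW.Zf_sub hF (by linarith) hU1 hU2')
      fun s _ _ => by positivity
  exact hQ _ _ _ _ _ _ _ _ _ _ _ _ _ _ _ _ _ _ _ _ _ _ ⟨hd, hU1, hU2', hH', hτ1, hτ2, hR', hTw, hone,
    fun t => hZ T (by linarith) U1 U2 hU1 hU2' t, hN T (by linarith) U1 U2 hU1 hU2', hD1, hM,
    P1, P2, A3⟩

end Pool.Agent.N802.X
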