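import Pool.Agent.N802.X.One
import Pool.Agent.N845.U2.Sh1
import Pool.Agent.N802.U.Sharp4
import Pool.Agent.N802.U.Direct5

/-!
# Weighted lower bounds: from windows to the zeros with ordinates in `(T, T + K]`

Lower bounds with a constant `q` for sums over the zeros with weights `0 ≤ c ≤` multiplicity.
-/

open Complex Filter Topology Set MeasureTheory
open scoped BigOperators ComplexConjugate

namespace Pool.Agent.N802.X

open H370 TC TH803UC Pool.Agent.N802.U Pool.Agent.N802 Pool.Agent.N845.U2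

/-- the lower bound with Gaussian weights -/
def S_coreC (F : ℂ → ℂ) (q : ℝ) (c : ℂ → ℝ) : Prop := ∀ ε : ℝ, 0 < ε → ε < 1 →
  ∃ δ T0 : ℝ, 0 < δ ∧ 10 ≤ T0 ∧ ∀ T : ℝ, T0 ≤ T →
  ∃ U1 U2 : ℝ, T ≤ U1 ∧ U1 ≤ T + 1 ∧ 2 * T - 1 ≤ U2 ∧ U2 ≤ 2 * T ∧
  ∀ h : ℝ, Real.log (Real.log T) ^ 3 / (δ * Real.log T) ≤ h → h ≤ δ →
  ∀ S : Finset ℕ, Len S (T ^ δ) → ∀ r : ℕ → ℂ,
  (∀ t, ‖RP S r t‖ ^ 2 ≤ Real.exp (δ * xp h T) * w1 S r) →
  ∀ τ H : ℝ, T * Real.exp (-(δ * xp h T)) ≤ H →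
    T + Real.log T * (H + 1) ≤ τ → τ ≤ 2 * T - Real.log T * (H + 1) →
  (q - ε) * (mr H S r * (h * Real.log T / Real.pi)) ≤
    (∫ t in (T + Real.log T)..(2 * T - Real.log T), rh τ H S r t * cnt (Zf F U1 U2) c h t)

/-- the lower bound for the zeros in `(T, T + K]` -/
def S_sharpC (F : ℂ → ℂ) (q : ℝ) (c : ℂ → ℝ) : Prop := ∀ ε : ℝ, 0 < ε → ε < 1 →
  ∃ δ T0 : ℝ, 0 < δ ∧ 10 ≤ T0 ∧ ∀ T : ℝ, T0 ≤ T →
  ∀ h : ℝ, Real.log (Real.log T) ^ 3 / (δ * Real.log T) ≤ h → h ≤ δ →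
  ∀ K : ℝ, T * Real.exp (-(δ * xp h T)) ≤ K → K ≤ T / 2 →
  ∀ S : Finset ℕ, Len S (T ^ δ) → ∀ r : ℕ → ℂ,
  (∀ t, ‖RP S r t‖ ^ 2 ≤ Real.exp (δ * xp h T) * w1 S r) →
  (q - ε) * (K / (2 * Real.pi) * Real.log T * w1 S r) ≤
    ∑ s ∈ Zf F T (T + K), c s * Mh S r h s.im

/-- the lower bound for the values at the zeros -/
def S_directC (F : ℂ → ℂ) (q : ℝ) (c : ℂ → ℝ) : Prop := ∀ ε : ℝ, 0 < ε → ε < 1 →
  ∃ δ T0 : ℝ, 0 < δ ∧ 10 ≤ T0 ∧ ∀ T : ℝ, T0 ≤ T → ∀ N : ℝ, 1 ≤ N →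
  ∀ S : Finset ℕ, Len S N →
  (1 + Real.log N) * (Real.log S.card + Real.log (Real.log T)) * Real.log (Real.log T) ^ 2 ≤
    δ * Real.log T →
  ∀ K : ℝ, T * Real.exp (-(δ * (Real.log T / ((1 + Real.log N) *
    Real.log (Real.log T) ^ 2)))) ≤ K → K ≤ T / 2 → ∀ r : ℕ → ℂ,
  (q - ε) * (K / (2 * Real.pi) * Real.log T * w1 S r) ≤
    ∑ s ∈ Zf F T (T + K), c s * ‖RP S r s.im‖ ^ 2

open Pool.Agent.N802.U.Sharpaux

/-- from Gaussian weights to the zeros in `(T, T + K]` -/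
theorem sharpC {F : ℂ → ℂ} (hF : GoodL F) {q : ℝ} {c : ℂ → ℝ} (hq : 1 / 2 ≤ q) (hq1 : q ≤ 1)
    (hc0 : ∀ s, 0 ≤ c s) (hcm : ∀ s, 0 < s.re → s.re < 1 → 1 < s.im → F s = 0 → c s ≤ mult F s)
    (hcore : S_coreC F q c) : S_sharpC F q c := by
  classical
  intro ε hε hε1
  obtain ⟨CN, hCN, hN⟩ := NN_crude hF
  obtain ⟨κ, hκ⟩ : ∃ κ : ℝ, κ = ε / 100 := ⟨_, rfl⟩
  have hκ0 : 0 < κ := by rw [hκ]; positivity
  have hκ1 : κ ≤ 1 / 100 := by rw [hκ]; linarith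
  have hεκ : ε = 100 * κ := by rw [hκ]; ring
  obtain ⟨δ1, T1, hδ1, hT1, core⟩ := hcore κ hκ0 (by linarith)
  obtain ⟨δm, hδm⟩ : ∃ δm : ℝ, δm = min δ1 (1 / 2) := ⟨_, rfl⟩
  have hδm0 : 0 < δm := by rw [hδm]; positivity
  have hδm1 : δm ≤ δ1 := by rw [hδm]; exact min_le_left _ _
  have hδm3 : δm ≤ 1 / 2 := by rw [hδm]; exact min_le_right _ _
  obtain ⟨δ, hδ⟩ : ∃ δ : ℝ, δ = δm / 8 := ⟨_, rfl⟩
  have hδ0 : 0 < δ := by rw [hδ]; positivity
  have hδa : δ ≤ δm / 4 := by rw [hδ]; linarith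
  have hδb : 8 * δ ≤ δ1 := by rw [hδ]; linarith
  have hδd : δ ≤ 1 / 16 := by rw [hδ]; linarith
  have hev := (ev (δ := δm) (κ := κ) (c := 1) (C := CN) (T1 := T1) hδm0 hδm3 hκ0 one_pos hCN).and
    ((ev (δ := 1 / 2) (κ := κ) (c := 1) (C := CN) (T1 := T1) (by norm_num) le_rfl hκ0 one_pos
      hCN).and (Real.tendsto_log_atTop.eventually_ge_atTop (max 64 (1 / κ))))
  obtain ⟨T0, hT0⟩ := eventually_atTop.1 hev
  refine ⟨δ, max T0 10, hδ0, le_max_right _ _, ?_⟩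
  intro T hT h hha hhb K hK1 hK2 S hS r hr
  obtain ⟨⟨⟨g1, g2⟩, ⟨g3, g3'⟩, ⟨g4, g5, g5'⟩, g6, -, g8, g9, g10, g11⟩,
    ⟨-, -, -, -, g7, -⟩, g12⟩ := hT0 T ((le_max_left _ _).trans hT)
  have g13 : 1 / κ ≤ Real.log T := (le_max_right _ _).trans g12
  have g12' : 64 ≤ Real.log T := (le_max_left _ _).trans g12
  obtain ⟨T', hT'⟩ : ∃ T' : ℝ, T' = 9 / 10 * T := ⟨_, rfl⟩
  rw [← hT'] at g2 g3 g3' g4 g5 g5' g6 g7 g8 g9 g10
  have hT'9 : 9 ≤ T' := by rw [hT']; linarith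
  obtain ⟨U1, U2, u1, u2, u3, u4, core⟩ := core T' g2
  have hxpT : xp h T = h * Real.log T / Real.log (Real.log T) ^ 2 := rfl
  have hxpT' : xp h T' = h * Real.log T' / Real.log (Real.log T') ^ 2 := rfl
  obtain ⟨x, hx⟩ : ∃ x : ℝ, x = xp h T := ⟨_, rfl⟩
  obtain ⟨x', hx'⟩ : ∃ x' : ℝ, x' = xp h T' := ⟨_, rfl⟩
  rw [← hx] at hxpT hK1 hr
  rw [← hx'] at hxpT'
  obtain ⟨L, hL⟩ : ∃ L : ℝ, L = Real.log T := ⟨_, rfl⟩
  obtain ⟨L', hL'⟩ : ∃ L' : ℝ, L' = Real.log T' := ⟨_, rfl⟩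
  obtain ⟨l, hl⟩ : ∃ l : ℝ, l = Real.log L := ⟨_, rfl⟩
  obtain ⟨l', hl'⟩ : ∃ l' : ℝ, l' = Real.log L' := ⟨_, rfl⟩
  rw [← hL'] at g3 g3' g4 g5 g5' g7 g8 g9 g10 core hxpT'
  rw [← hL] at g3 g3' g5 g5' g12' g13 hha hxpT ⊢
  rw [← hl] at g5 g5' hha hxpT
  rw [← hl'] at g4 g5 g5' core hxpT'
  have hT0' : 0 < T := by linarith
  have hT'0 : 0 < T' := by linarith
  have hl0 : 1 ≤ l := g4.trans g5'
  have hl'0 : 0 < l' := by linarith
  have hL'p : 0 < L' := by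
    rw [hL']
    exact Real.log_pos (by linarith)
  have hLp : 0 < L := by linarith
  have hlp : 0 < l := by linarith
  have hL2 : L ≤ 2 * L' := by
    have : κ * L ≤ 1 / 100 * L := mul_le_mul_of_nonneg_right hκ1 hLp.le
    linarith only [g3, this, hLp]
  -- the window
  have hh0 : 0 < h := lt_of_lt_of_le (by positivity) hha
  have hhL : l ^ 3 / δ ≤ h * L := by
    rw [div_le_iff₀ (by positivity)] at hha
    rw [div_le_iff₀ hδ0]
    linarith
  have hhc : h ≤ 1 := by linarith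
  have hx0 : 0 < x := by rw [hxpT]; positivity
  have hx'0 : 0 < x' := by rw [hxpT']; positivity
  have hxx : x ≤ 2 * x' := by
    rw [hxpT, hxpT']
    calc h * L / l ^ 2 ≤ h * (2 * L') / l' ^ 2 := by
          apply div_le_div₀ (by positivity) (by gcongr) (by positivity)
          exact pow_le_pow_left₀ hl'0.le g5' 2
      _ = _ := by ring
  have hxl : l / δ ≤ x := by
    rw [hxpT, le_div_iff₀ (by positivity)]
    calc l / δ * l ^ 2 = l ^ 3 / δ := by ring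
      _ ≤ _ := hhL
  have hxL : δ * x ≤ L / 8 := by
    have h1 : x ≤ L := by
      rw [hxpT]
      calc h * L / l ^ 2 ≤ 1 * L / 1 := by
            apply div_le_div₀ (by positivity) (by gcongr) one_pos (one_le_pow₀ hl0)
        _ = L := by ring
    calc δ * x ≤ 1 / 16 * L := mul_le_mul hδd h1 hx0.le (by norm_num)
      _ ≤ L / 8 := by linarith
  have hha' : l' ^ 3 / (δ1 * L') ≤ h := by
    rw [div_le_iff₀ (by positivity)]
    rw [div_le_iff₀ (by positivity)] at hha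
    calc l' ^ 3 ≤ l ^ 3 := pow_le_pow_left₀ hl'0.le g5' 3
      _ ≤ h * (δ * L) := hha
      _ ≤ h * (δ1 * L') := by
          apply mul_le_mul_of_nonneg_left _ hh0.le
          calc δ * L ≤ δ * (2 * L') := mul_le_mul_of_nonneg_left hL2 hδ0.le
            _ = (2 * δ) * L' := by ring
            _ ≤ δ1 * L' := mul_le_mul_of_nonneg_right (by linarith) hL'p.le
  have hhb' : h ≤ δ1 := by linarith
  have hTK : T ^ (1 - (1 / 2 : ℝ) / 4) ≤ K := by
    refine le_trans ?_ hK1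
    have e1 : T ^ (1 - (1 / 2 : ℝ) / 4) = T * Real.exp (-(L / 8)) := by
      rw [Real.rpow_sub hT0', Real.rpow_one, Real.rpow_def_of_pos hT0', Real.exp_neg,
        div_eq_mul_inv, ← hL]
      congr 3
      ring
    rw [e1]
    apply mul_le_mul_of_nonneg_left _ hT0'.le
    exact Real.exp_le_exp.2 (by linarith)
  have hK0 : 0 < K := lt_of_lt_of_le (by positivity) hTK
  -- the width
  obtain ⟨D, hD⟩ : ∃ D : ℝ, D = κ * K := ⟨_, rfl⟩
  have hD0 : 0 < D := by rw [hD]; positivity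
  obtain ⟨H, hH⟩ : ∃ H : ℝ, H = D / L' := ⟨_, rfl⟩
  have hH0 : 0 < H := by rw [hH]; positivity
  have hLH : L' * H = D := by rw [hH]; field_simp
  have hHm : T' ^ (1 - (1 / 2 : ℝ)) ≤ H := by
    rw [hH, le_div_iff₀ hL'p]
    refine g7.trans ?_
    rw [hD]
    exact mul_le_mul_of_nonneg_left hTK hκ0.le
  have hH1 : 1 ≤ H := le_trans (Real.one_le_rpow (by linarith) (by norm_num)) hHm
  have hHa : T' * Real.exp (-(δ1 * x')) ≤ H := by
    rw [hH, le_div_iff₀ hL'p, hD]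
    have e1 : 2 * l ≤ δ1 * x' - δ * x := by
      have e2 : 4 * (δ * x) ≤ δ1 * x' := by
        calc 4 * (δ * x) ≤ 4 * (δ * (2 * x')) := by gcongr
          _ = (8 * δ) * x' := by ring
          _ ≤ δ1 * x' := mul_le_mul_of_nonneg_right hδb hx'0.le
      have e3 : l ≤ δ * x := by
        calc l = δ * (l / δ) := by field_simp
          _ ≤ _ := mul_le_mul_of_nonneg_left hxl hδ0.le
      linarith
    have e4 : Real.exp (-(δ1 * x')) ≤ Real.exp (-(δ * x)) * (L ^ 2)⁻¹ := by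
      have e5 : (L ^ 2)⁻¹ = Real.exp (-(2 * l)) := by
        rw [Real.exp_neg, show 2 * l = (2 : ℕ) * l by norm_num, Real.exp_nat_mul, hl,
          Real.exp_log hLp]
      rw [e5, ← Real.exp_add]
      exact Real.exp_le_exp.2 (by linarith)
    have e6 : (L ^ 2)⁻¹ * L' ≤ κ := by
      have h1 : (L ^ 2)⁻¹ * L' ≤ (L ^ 2)⁻¹ * L := by gcongr
      have h2 : (L ^ 2)⁻¹ * L = 1 / L := by field_simp
      have h3 : 1 / L ≤ κ := by
        rw [div_le_iff₀ hκ0] at g13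
        rw [div_le_iff₀ hLp]
        linarith
      linarith
    have hT'T : T' ≤ T := by rw [hT']; linarith
    calc T' * Real.exp (-(δ1 * x')) * L' ≤
        T * (Real.exp (-(δ * x)) * (L ^ 2)⁻¹) * L' := by gcongr
      _ = (T * Real.exp (-(δ * x))) * ((L ^ 2)⁻¹ * L') := by ring
      _ ≤ K * κ := mul_le_mul hK1 e6 (by positivity) hK0.le
      _ = κ * K := mul_comm _ _
  have hD2 : 2 < D := by
    rw [hD]
    refine lt_of_lt_of_le g11 (mul_le_mul_of_nonneg_left ?_ hκ0.le)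
    refine le_trans ?_ hTK
    exact Real.rpow_le_rpow_of_exponent_le (by linarith) (by norm_num)
  have hDT : D ≤ T / 200 := by
    rw [hD]
    calc κ * K ≤ 1 / 100 * (T / 2) := mul_le_mul hκ1 hK2 hK0.le (by norm_num)
      _ = T / 200 := by ring
  have hDK : D ≤ K / 100 := by
    rw [hD]
    calc κ * K ≤ 1 / 100 * K := mul_le_mul_of_nonneg_right hκ1 hK0.le
      _ = K / 100 := by ring
  -- lengths
  have hSa : Len S (T' ^ δ1) := fun k hk => by
    obtain ⟨h1, h2⟩ := hS k hk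
    refine ⟨h1, h2.trans ?_⟩
    calc T ^ δ ≤ T ^ (δm / 4) := Real.rpow_le_rpow_of_exponent_le (by linarith) hδa
      _ ≤ T' ^ δm := g6
      _ ≤ T' ^ δ1 := Real.rpow_le_rpow_of_exponent_le (by linarith) hδm1
  -- the sup bound
  have hw0 : 0 ≤ w1 S r := Pool.Agent.N802.w1_nonneg S r
  have hra : ∀ t, ‖RP S r t‖ ^ 2 ≤ Real.exp (δ1 * x') * w1 S r := fun t =>
    (hr t).trans (mul_le_mul_of_nonneg_right (Real.exp_le_exp.2 (by
      calc δ * x ≤ δ * (2 * x') := by gcongr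
        _ = (2 * δ) * x' := by ring
        _ ≤ δ1 * x' := mul_le_mul_of_nonneg_right (by linarith) hx'0.le)) hw0)
  have hM : ∀ t, ‖RP S r t‖ ^ 2 ≤ T * w1 S r := fun t => by
    refine (hr t).trans (mul_le_mul_of_nonneg_right ?_ hw0)
    have e1 : Real.exp L = T := by rw [hL]; exact Real.exp_log hT0'
    rw [← e1]
    apply Real.exp_le_exp.2
    linarith
  have hf : Continuous (fun t => ‖RP S r t‖ ^ 2) := by
    have : Continuous (RP S r) := Pool.Agent.N802.TP_cont _ _ _ _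
    exact this.norm.pow 2
  have hf0 : ∀ t, 0 ≤ ‖RP S r t‖ ^ 2 := fun t => by positivity
  have hsqrt : 1 ≤ Real.sqrt (2 * Real.pi) := by
    rw [Real.one_le_sqrt]
    linarith only [Real.pi_gt_three]
  obtain ⟨P, hP⟩ : ∃ P : ℝ, P = Real.sqrt (2 * Real.pi) * H := ⟨_, rfl⟩
  have hP1 : 1 ≤ P := by
    rw [hP]
    exact one_le_mul_of_one_le_of_one_le hsqrt hH1
  have hmr : mr H S r = P * w1 S r := by
    unfold mr
    rw [hP]
  replace core := core h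
  rw [← hx'] at core
  have hhπ : 1 / 4 ≤ h * L / Real.pi := by
    have hpi4 := Real.pi_le_four
    have hpi := Real.pi_pos
    rw [div_le_div_iff₀ (by norm_num) hpi]
    have h1 : (1 : ℝ) ≤ l ^ 3 / δ := by
      rw [le_div_iff₀ hδ0]
      have : (1 : ℝ) ≤ l ^ 3 := one_le_pow₀ hl0
      linarith
    linarith
  have hLT : L' ≤ T := by linarith only [g8, hT0']
  have hcardN : ∑ s ∈ Zf F U1 U2, (mult F s : ℝ) ≤ CN * (T' * L') := by
    have e2 := hN T' (by linarith only [hT'9]) U1 U2 u1 u4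
    rw [NN_eq hF (by linarith only [u1, hT'9] : 1 ≤ U1), ← hL'] at e2
    push_cast at e2
    exact e2
  -- the small error term
  have hsmall : ∀ {Z : Finset ℂ} {m : ℂ → ℝ}, (∀ s, 0 ≤ m s) → (∑ s ∈ Z, m s) ≤ CN * (T' * L') →
      Real.exp (-(D ^ 2) / (2 * H ^ 2)) * ((2 * T' - L' - (T' + L')) *
        (T * w1 S r * ∑ s ∈ Z, m s)) ≤ w1 S r * (κ * (1 / 4)) := by
    intro Z m hm1 hcard
    have e0 : -(D ^ 2) / (2 * H ^ 2) = -L' ^ 2 / 2 := by
      rw [← hLH]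
      field_simp
    rw [e0]
    have e1 : 2 * T' - L' - (T' + L') ≤ T := by rw [hT']; linarith only [hL'p, hT0']
    have e2 : 0 ≤ 2 * T' - L' - (T' + L') := by rw [hT']; linarith only [g8, hT0']
    have e3 : T' * L' ≤ T ^ 2 := by
      have : T' ≤ T := by rw [hT']; linarith only [hT0']
      rw [sq]
      exact mul_le_mul this hLT hL'p.le hT0'.le
    have e4 : 0 ≤ ∑ s ∈ Z, m s := Finset.sum_nonneg fun s _ => hm1 s
    calc Real.exp (-L' ^ 2 / 2) * ((2 * T' - L' - (T' + L')) *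
          (T * w1 S r * ∑ s ∈ Z, m s)) ≤
        Real.exp (-L' ^ 2 / 2) * (T * (T * w1 S r * (CN * T ^ 2))) := by
          apply mul_le_mul_of_nonneg_left _ (Real.exp_pos _).le
          apply mul_le_mul e1 _ (mul_nonneg (mul_nonneg hT0'.le hw0) e4) hT0'.le
          apply mul_le_mul_of_nonneg_left _ (mul_nonneg hT0'.le hw0)
          exact hcard.trans (mul_le_mul_of_nonneg_left e3 hCN.le)
      _ = w1 S r * (CN * T ^ 4 * Real.exp (-L' ^ 2 / 2)) := by ring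
      _ ≤ w1 S r * (CN * T ^ 5 * Real.exp (-L' ^ 2 / 2)) := by
          have h4 : T ^ 4 ≤ T ^ 5 := pow_le_pow_right₀ (by linarith only [g1]) (by norm_num)
          gcongr
      _ ≤ w1 S r * (κ * (1 / 4)) := mul_le_mul_of_nonneg_left g10 hw0
  have hcore := fun τ (hτ1 : T' + L' * (H + 1) ≤ τ) (hτ2 : τ ≤ 2 * T' - L' * (H + 1)) =>
    core hha' hhb' S hSa r hra τ H hHa hτ1 hτ2
  -- a lower bound, for the simple critical zeros and for all zeros
  have hlowgen : ∀ {q : ℝ} {Z Z' : Finset ℂ} {m : ℂ → ℝ}, 1 / 2 ≤ q → q ≤ 1 → (∀ s, 0 ≤ m s) →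
      (∑ s ∈ Z, m s) ≤ CN * (T' * L') →
      (∀ s ∈ Z, (T + 2 * D - D) - h ≤ s.im → s.im ≤ (T + K - 2 * D + D) + h → s ∈ Z') →
      (∀ τ ∈ Set.Icc (T + 2 * D) (T + K - 2 * D),
        (q - κ) * (P * w1 S r * (h * L' / Real.pi)) ≤
          ∫ t in (T' + L')..(2 * T' - L'), om τ H t * (‖RP S r t‖ ^ 2 * cnt Z m h t)) →
      (q - ε) * (K / (2 * Real.pi) * L * w1 S r) ≤ ∑ s ∈ Z', m s * Mh S r h s.im := by
    intro q Z Z' m hq hq1 hm1 hcard hZZ hB
    have hlow := lower (f := fun t => ‖RP S r t‖ ^ 2) hf hf0 hM (Z := Z) (m := m) hm1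
      (h := h) (H := H) (D := D) (a := T + 2 * D) (b := T + K - 2 * D) (c := T' + L')
      (d := 2 * T' - L') (B := (q - κ) * (P * w1 S r * (h * L' / Real.pi))) hH0 hD0.le
      (by linarith only [hDK, hK0]) (by rw [hT']; linarith only [hD0, g8, hT0'])
      (by rw [hT']; linarith only [hDK, hK0, hK2, g8, hT0', hD0]) hB
    have hpts := pts_lower (f := fun t => ‖RP S r t‖ ^ 2) hf hf0 (Z := Z) (Z' := Z')
      (m := m) hm1 (h := h) (h1 := h) (a := T + 2 * D - D) (b := T + K - 2 * D + D)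
      (by linarith only [hDK, hK0]) le_rfl hh0.le hZZ
    rw [← Mh_sum S r hh0 Z' m] at hpts
    rw [hεκ]
    refine num_low (q := q) (K := K) (w := w1 S r) (κ := κ) (h := h)
      (L := L) (L' := L') (P := P) (Q := ∫ t in (T + 2 * D - D)..(T + K - 2 * D + D),
        ‖RP S r t‖ ^ 2 * cnt Z m h t)
      (A := Real.exp (-(D ^ 2) / (2 * H ^ 2)) * ((2 * T' - L' - (T' + L')) *
        (T * w1 S r * ∑ s ∈ Z, m s))) hq hq1 hκ0 hκ1 hK0.le hw0 hh0 hP1 hLp hhπ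
        g3 ?_ (hsmall hm1 hcard) hpts
    have e : T + K - 2 * D - (T + 2 * D) = K * (1 - 4 * κ) := by rw [hD]; ring
    rw [e, ← hP] at hlow
    exact hlow
  have hcard : (∑ s ∈ Zf F U1 U2, c s) ≤ CN * (T' * L') := by
    refine le_trans (Finset.sum_le_sum fun s hs => ?_) hcardN
    have hsz := (mem_Zf hF (by linarith only [u1, hT'9] : 1 ≤ U1)).1 hs
    exact hcm s hsz.1 hsz.2.1 (by linarith only [hsz.2.2.1, u1, hT'9]) hsz.2.2.2.2
  exact hlowgen (q := q) (Z := Zf F U1 U2) (Z' := Zf F T (T + K))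
      (m := c) hq hq1 hc0 hcard (fun s hs hs1 hs2 => by
        have hsz := (mem_Zf hF (by linarith only [u1, hT'9] : 1 ≤ U1)).1 hs
        exact (mem_Zf hF (by linarith only [g1] : 1 ≤ T)).2 ⟨hsz.1, hsz.2.1,
          by linarith only [hs1, hhc, hD2], by linarith only [hs2, hhc, hD2],
          hsz.2.2.2.2⟩)
      (fun τ hτ => by
        have h2 := (hcore τ (by
          rw [mul_add, mul_one, hLH, hT']
          have := hτ.1
          linarith only [this, g8, hDT, hT0', hD0]) (by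
          rw [mul_add, mul_one, hLH, hT']
          have := hτ.2
          linarith only [this, g8, hDT, hT0', hD0, hK2]))
        rw [hmr] at h2
        refine h2.trans (le_of_eq ?_)
        refine intervalIntegral.integral_congr fun t _ => ?_
        unfold rh
        ring)

open Pool.Agent.N802.U.Directaux

/-- from windows to the values at the zeros -/
theorem directC {F : ℂ → ℂ} (hF : GoodL F) {q : ℝ} {c : ℂ → ℝ}
    (hcn : ∀ s, 0 ≤ c s) (hcm : ∀ s, 0 < s.re → s.re < 1 → 1 < s.im → F s = 0 → c s ≤ mult F s)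
    (h4 : S_sharp4 F) (hC : S_sharpC F q c) : S_directC F q c := by
  classical
  intro ε hε hε1
  obtain ⟨δa, Ta, hδa, hTa, H4⟩ := h4 (ε / 4) (by linarith) (by linarith)
  obtain ⟨δb, Tb, hδb, hTb, HC⟩ := hC (ε / 4) (by linarith) (by linarith)
  obtain ⟨δ4, hδ4, hδ4a, hδ4b⟩ : ∃ δ4 : ℝ, 0 < δ4 ∧ δ4 ≤ δa ∧ δ4 ≤ δb :=
    ⟨min δa δb, lt_min hδa hδb, min_le_left _ _, min_le_right _ _⟩
  obtain ⟨T4, hT4, hT4a, hT4b⟩ : ∃ T4 : ℝ, 10 ≤ T4 ∧ Ta ≤ T4 ∧ Tb ≤ T4 :=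
    ⟨max Ta Tb, hTa.trans (le_max_left _ _), le_max_left _ _, le_max_right _ _⟩
  obtain ⟨c0, hc0, hc1, hc2⟩ : ∃ c0 : ℝ, 0 < c0 ∧ c0 ≤ ε / 64 ∧ c0 ≤ δ4 :=
    ⟨min (ε / 64) δ4, lt_min (by positivity) hδ4, min_le_left _ _, min_le_right _ _⟩
  obtain ⟨δ, hδ⟩ : ∃ δ : ℝ, δ = δ4 * c0 := ⟨_, rfl⟩
  have hδ0 : 0 < δ := by rw [hδ]; positivity
  have hδ1 : δ ≤ δ4 := by
    rw [hδ]
    have : c0 ≤ 1 := by linarith
    nlinarith
  have ev : ∀ᶠ T : ℝ in atTop, 1 ≤ Real.log T ∧ 1 ≤ Real.log (Real.log T) :=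
    (Real.tendsto_log_atTop.eventually_ge_atTop _).and
      ((Real.tendsto_log_atTop.comp Real.tendsto_log_atTop).eventually_ge_atTop _)
  obtain ⟨T1, hT1⟩ := eventually_atTop.1 ev
  refine ⟨δ, max T4 T1, hδ0, hT4.trans (le_max_left _ _), ?_⟩
  intro T hT N hN S hS hcard K hK1 hK2 r
  obtain ⟨hL1, hl1⟩ := hT1 T ((le_max_right _ _).trans hT)
  have hTT4 : T4 ≤ T := (le_max_left _ _).trans hT
  have hT0 : 0 < T := by linarith
  set L := Real.log T with hL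
  set l := Real.log L with hldef
  have hL0 : 0 < L := by linarith
  have hl0 : 0 < l := by linarith
  have hX0 : 0 ≤ Real.log N := Real.log_nonneg hN
  set Y := 1 + Real.log N with hY
  have hY1 : 1 ≤ Y := by linarith
  have hY0 : 0 < Y := by linarith
  have hSN : Len S (Real.exp Y) := by
    intro k hk
    refine ⟨(hS k hk).1, (hS k hk).2.trans ?_⟩
    rw [← Real.log_le_iff_le_exp (by linarith)]
    linarith
  have hM0 : 0 ≤ Real.log (S.card : ℝ) := Real.log_natCast_nonneg _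
  have hl2 : 0 < l ^ 2 := by positivity
  have k1 : Y * l ^ 3 ≤ δ * L := by
    refine le_trans ?_ hcard
    calc Y * l ^ 3 = Y * (0 + l) * l ^ 2 := by ring
      _ ≤ Y * (Real.log (S.card : ℝ) + l) * l ^ 2 := by gcongr
  have k2 : Y * Real.log (S.card : ℝ) * l ^ 2 ≤ δ * L := by
    refine le_trans ?_ hcard
    calc Y * Real.log (S.card : ℝ) * l ^ 2 = Y * (Real.log (S.card : ℝ) + 0) * l ^ 2 := by ring
      _ ≤ Y * (Real.log (S.card : ℝ) + l) * l ^ 2 := by gcongr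
  set h := c0 / Y with hh
  have hh0 : 0 < h := by positivity
  have hhY : h * Y = c0 := by rw [hh]; field_simp
  have hxp : xp h T = c0 * (L / (Y * l ^ 2)) := by
    unfold xp
    rw [← hL, ← hldef, hh]
    field_simp
  have c1 : l ^ 3 / (δ4 * L) ≤ h := by
    rw [hh, div_le_div_iff₀ (by positivity) hY0]
    calc l ^ 3 * Y = Y * l ^ 3 := by ring
      _ ≤ δ * L := k1
      _ = c0 * (δ4 * L) := by rw [hδ]; ring
  have c2 : h ≤ δ4 := by
    refine le_trans ?_ hc2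
    rw [hh]
    exact div_le_self hc0.le hY1
  have c3 : δ * (L / (Y * l ^ 2)) = δ4 * xp h T := by
    rw [hxp, hδ]; ring
  have c4 : T * Real.exp (-(δ4 * xp h T)) ≤ K := by
    rw [← c3]
    exact hK1
  have c5 : Len S (T ^ δ4) := by
    intro k hk
    refine ⟨(hS k hk).1, (hS k hk).2.trans ?_⟩
    rw [Real.rpow_def_of_pos hT0, ← Real.log_le_iff_le_exp (by linarith), ← hL]
    have h1 : Y ≤ Y * l ^ 3 := le_mul_of_one_le_right hY0.le (one_le_pow₀ hl1)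
    calc Real.log N ≤ Y := by linarith
      _ ≤ δ * L := h1.trans k1
      _ ≤ δ4 * L := by gcongr
      _ = L * δ4 := mul_comm _ _
  have c6 : ∀ r : ℕ → ℂ, ∀ t, ‖RP S r t‖ ^ 2 ≤ Real.exp (δ4 * xp h T) * w1 S r := by
    intro r t
    have hw1 := w1_nonneg S r
    refine (RP_card S r t).trans ?_
    apply mul_le_mul_of_nonneg_right _ hw1
    rcases Nat.eq_zero_or_pos S.card with h0 | h0
    · rw [h0, Nat.cast_zero]
      positivity
    · have h1 : (0 : ℝ) < S.card := by exact_mod_cast h0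
      rw [← Real.log_le_iff_le_exp h1, ← c3, mul_div_assoc', le_div_iff₀ (by positivity)]
      calc Real.log (S.card : ℝ) * (Y * l ^ 2) = Y * Real.log (S.card : ℝ) * l ^ 2 := by ring
        _ ≤ _ := k2
  have hxp0 : 0 ≤ xp h T := by rw [hxp]; positivity
  have hT1' : 1 ≤ T := by linarith
  have mono : ∀ δ' : ℝ, δ4 ≤ δ' → l ^ 3 / (δ' * L) ≤ h ∧ h ≤ δ' ∧
      T * Real.exp (-(δ' * xp h T)) ≤ K ∧ Len S (T ^ δ') ∧
      ∀ r : ℕ → ℂ, ∀ t, ‖RP S r t‖ ^ 2 ≤ Real.exp (δ' * xp h T) * w1 S r := by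
    intro δ' hδ'
    have hδ'0 : 0 < δ' := lt_of_lt_of_le hδ4 hδ'
    have e1 : δ4 * xp h T ≤ δ' * xp h T := mul_le_mul_of_nonneg_right hδ' hxp0
    refine ⟨le_trans ?_ c1, c2.trans hδ', le_trans ?_ c4,
      Len_mono c5 (Real.rpow_le_rpow_of_exponent_le hT1' hδ'), fun r t => (c6 r t).trans ?_⟩
    · gcongr
    · gcongr
    · exact mul_le_mul_of_nonneg_right (Real.exp_le_exp.2 e1) (w1_nonneg S r)
  obtain ⟨a1, a2, a3, a4, a5⟩ := mono δa hδ4a
  obtain ⟨b1, b2, b3, b4, b5⟩ := mono δb hδ4b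
  have M1 := H4 T (hT4a.trans hTT4) h a1 a2 K a3 hK2 S a4 r (a5 r)
  have M2 := (H4 T (hT4a.trans hTT4) h a1 a2 K a3 hK2 S a4 (dr r) (a5 (dr r))).2.1
  have MC := HC T (hT4b.trans hTT4) h b1 b2 K b3 hK2 S b4 r (b5 r)
  set w := w1 S r with hw
  have hw0 : 0 ≤ w := w1_nonneg S r
  have hK0 : 0 < K := lt_of_lt_of_le (by positivity) hK1
  set Q := K / (2 * Real.pi) * Real.log T with hQ
  have hQ0 : 0 < Q := by
    rw [hQ, ← hL]
    positivity
  set Z := Zf F T (T + K) with hZ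
  -- the sum of the errors
  set er : ℂ → ℝ := fun s => 2 * h * (Y * Mh S r h s.im + Mh S (dr r) h s.im / Y) with her
  have er0 : ∀ s, 0 ≤ er s := fun s => by
    have a1 := Mh_nonneg (S := S) (r := r) (g := s.im) hh0
    have a2 := Mh_nonneg (S := S) (r := dr r) (g := s.im) hh0
    simp only [her]
    positivity
  have hpt : ∀ s : ℂ, |‖RP S r s.im‖ ^ 2 - Mh S r h s.im| ≤ er s := fun s =>
    Directaux.point S r hh0 hY0 s.im
  have hsum : ∑ s ∈ Z, (mult F s : ℝ) * er s ≤ ε / 8 * (Q * w) := by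
    have e1 : ∑ s ∈ Z, (mult F s : ℝ) * er s =
        2 * h * (Y * (∑ s ∈ Z, (mult F s : ℝ) * Mh S r h s.im) +
          (∑ s ∈ Z, (mult F s : ℝ) * Mh S (dr r) h s.im) / Y) := by
      rw [Finset.mul_sum, Finset.sum_div, ← Finset.sum_add_distrib, Finset.mul_sum]
      refine Finset.sum_congr rfl fun s _ => ?_
      simp only [her]
      ring
    rw [e1]
    have e2 : (∑ s ∈ Z, (mult F s : ℝ) * Mh S (dr r) h s.im) / Y ≤
        Y * ((1 + ε / 4) * (Q * w)) := by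
      rw [div_le_iff₀ hY0]
      have e3 := w1_dr (r := r) hSN
      have e4 : (1 + ε / 4) * (Q * w1 S (dr r)) ≤ (1 + ε / 4) * (Q * (Y ^ 2 * w)) :=
        mul_le_mul_of_nonneg_left (mul_le_mul_of_nonneg_left e3 hQ0.le) (by positivity)
      refine (M2.trans e4).trans (le_of_eq ?_)
      ring
    have e5 : Y * (∑ s ∈ Z, (mult F s : ℝ) * Mh S r h s.im) ≤
        Y * ((1 + ε / 4) * (Q * w)) := mul_le_mul_of_nonneg_left M1.2.1 hY0.le
    have e6 := mul_le_mul_of_nonneg_left (add_le_add e5 e2) (show 0 ≤ 2 * h by positivity)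
    refine e6.trans ?_
    have e7 : 2 * h * (Y * ((1 + ε / 4) * (Q * w)) + Y * ((1 + ε / 4) * (Q * w))) =
        4 * (h * Y) * (1 + ε / 4) * (Q * w) := by ring
    rw [e7, hhY]
    have e8 : 0 ≤ Q * w := by positivity
    have e9 : 4 * c0 * (1 + ε / 4) ≤ ε / 8 := by nlinarith
    exact mul_le_mul_of_nonneg_right e9 e8
  have e4 : 0 ≤ Q * w := by positivity
  have e1 : ∑ s ∈ Z, c s * er s ≤ ∑ s ∈ Z, (mult F s : ℝ) * er s := by
    refine Finset.sum_le_sum fun s hs => mul_le_mul_of_nonneg_right ?_ (er0 s)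
    have hsz := (mem_Zf hF hT1').1 hs
    exact hcm s hsz.1 hsz.2.1 (by linarith [hsz.2.2.1]) hsz.2.2.2.2
  have e2 : ∑ s ∈ Z, c s * Mh S r h s.im - ∑ s ∈ Z, c s * er s ≤
      ∑ s ∈ Z, c s * ‖RP S r s.im‖ ^ 2 := by
    rw [← Finset.sum_sub_distrib]
    refine Finset.sum_le_sum fun s _ => ?_
    rw [← mul_sub]
    refine mul_le_mul_of_nonneg_left ?_ (hcn s)
    have := (abs_le.1 (hpt s)).1
    linarith
  have e5 : (q - ε) * (Q * w) ≤ (q - ε / 4) * (Q * w) - ε / 8 * (Q * w) := by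
    have e6 := mul_le_mul_of_nonneg_right (show (q - ε) ≤ (q - ε / 4) - ε / 8 by
      linarith) e4
    linarith
  refine e5.trans (le_trans ?_ e2)
  linarith [e1.trans hsum]

end Pool.Agent.N802.X
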