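import Pool.Agent.N802.X.Pt

/-! # Weighted lower bounds from an inequality at every point -/

open Complex Filter Topology Set MeasureTheory
open scoped BigOperators ComplexConjugate

namespace Pool.Agent.N802.X

open H370 TC TH803UC Pool.Agent.N802.U Pool.Agent.N802 Pool.Agent.N845.U2

variable {F : ℂ → ℂ} {ε T h : ℝ} {U1 U2 : ℝ} {S : Finset ℕ} {r : ℕ → ℂ} {τ H : ℝ}
    {κ CD CE CZ CN Cf CM η c2 δ : ℝ} {G : ℂ → ℂ} {w : ℝ → ℂ} {Gp : ℂ → ℂ} {gp : ℝ → ℂ}

/-- a weighted lower bound from an inequality at every point -/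
lemma one_gen (o : Out F ε T h U1 U2 S r τ H κ CD CE CZ CN Cf CM η c2 δ G w Gp gp)
    {x : ℝ → ℝ} {k q : ℝ}
    (ix : IntervalIntegrable (fun t => rh τ H S r t * x t) volume (T + Real.log T)
      (2 * T - Real.log T))
    (hpt : ∀ t, 4 * (SS F U1 U2 (fun z => G z ^ 2) 0 t).re - k * (SS F U1 U2 Gp 0 t).re -
      2 * (∫ α in (0 : ℝ)..1, Rf α * ‖SS F U1 U2 (fun z => G z ^ 2)
        ((1 - 4 * η) * Real.log T * α) t‖ ^ 2) -
      40 * Real.log T ^ 2 * Pool.Agent.N802.U.FF F U1 U2 η (η / 1000 * xp h T) (Real.log T) t -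
      (48 / Real.log T ^ 3 * Zg F U1 U2 t + 4 * (NN F U1 U2 : ℝ) * tau (Real.log T)) ≤ x t)
    (hnum : ∀ U P1 P2 P3 P4 P5 : ℝ, 0 ≤ U → (1 - η - ε / 50) * U ≤ P1 →
      P2 ≤ (1 + η + ε / 50) * U → P3 ≤ ((1 + η) * (cMTinv + ε / 10) + ε / 100) * U →
      P4 ≤ ε / 100 * U → P5 ≤ ε / 100 * U →
      (q - ε) * U ≤ 4 * P1 - k * P2 - P3 - P4 - P5) :
    (q - ε) * (mr H S r * (h * Real.log T / Real.pi)) ≤
      (∫ t in (T + Real.log T)..(2 * T - Real.log T), rh τ H S r t * x t) := by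
  obtain ⟨hd, hU1, hU2', hH, hτ1, hτ2, hR, hTw, hone, hZ, hN, hD, hM, P1, P2, A3⟩ := o
  obtain ⟨L, hL⟩ : ∃ L : ℝ, L = Real.log T := ⟨_, rfl⟩
  obtain ⟨x0, hx0⟩ : ∃ x0 : ℝ, x0 = xp h T := ⟨_, rfl⟩
  obtain ⟨A, hA⟩ : ∃ A : ℝ, A = η / 1000 * xp h T := ⟨_, rfl⟩
  rw [← hL] at hd hτ1 hτ2 hTw hone hZ hN hD P1 P2 A3 hpt ix ⊢
  rw [← hA] at hd hTw hone hpt
  rw [← hx0] at hd hH hR
  have hL := hd.hL100
  have hl := hd.hl100
  have hT10 := hd.hT10
  have hLT := hd.hLT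
  have hη := hd.hη
  have hη10 := hd.hη10
  have hηκ := hd.hηκ
  have hκ := hd.hκ
  have hε := hd.hε
  have hLpos : 0 < L := by linarith
  have hc20 : 0 < c2 := by
    rw [hd.hc2]; positivity
  have hH0 : 0 < H := lt_of_lt_of_le (by positivity) hH
  have hw1 := w1_nonneg S r
  have h0 := hd.hh0
  have hh1 := hd.hh1
  have hπ := Real.pi_pos
  have hU11 : (1 : ℝ) ≤ U1 := by linarith
  have hab : T + L ≤ 2 * T - L := by linarith
  have hρc := rh_cont τ H S r
  have hρ0 := rh_nonneg τ H S r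
  have hρi := rh_intg (τ := τ) hH0 S r
  set m := mr H S r with hmd
  have hm0 : 0 ≤ m := by rw [hmd]; unfold mr; positivity
  set U := m * (h * L / Real.pi) with hUd
  have hU : 0 ≤ U := by positivity
  have hunit : m * L * (h / Real.pi) = U := by rw [hUd]; ring
  rw [abs_le] at P1 P2
  have A1 : (1 - η - ε / 50) * U ≤
      ∫ t in (T + L)..(2 * T - L), rh τ H S r t * (SS F U1 U2 (fun z => G z ^ 2) 0 t).re := by
    have h2 : (1 - η) * U ≤ m * L * (gs w 0).re := by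
      rw [← hunit]
      calc (1 - η) * (m * L * (h / Real.pi)) = m * L * ((1 - η) * (h / Real.pi)) := by ring
        _ ≤ _ := mul_le_mul_of_nonneg_left hTw.lo (by positivity)
    linarith [P1.1]
  have A2 : ∫ t in (T + L)..(2 * T - L), rh τ H S r t * (SS F U1 U2 Gp 0 t).re ≤
      (1 + η + ε / 50) * U := by
    have h2 : m * L * (gs gp 0).re ≤ (1 + η) * U := by
      rw [← hunit]
      calc m * L * (gs gp 0).re ≤ m * L * ((1 + η) * (h / Real.pi)) :=
            mul_le_mul_of_nonneg_left hTw.hi (by positivity)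
        _ = _ := by ring
    linarith [P2.2]
  set Bd := Real.exp (c2 * x0) * w1 S r with hBd
  have hρB : ∀ t, rh τ H S r t ≤ Bd := by
    intro t
    unfold rh
    calc om τ H t * ‖RP S r t‖ ^ 2 ≤ 1 * ‖RP S r t‖ ^ 2 :=
          mul_le_mul_of_nonneg_right (om_le_one _ _ _) (sq_nonneg _)
      _ = ‖RP S r t‖ ^ 2 := one_mul _
      _ ≤ Bd := hR t
  have P4 := FF_bound (F := F) (U1 := U1) (U2 := U2) hρc hρ0 hρB
    (η := η) (A := A) (L := L) (κ := κ) (by linarith) hLpos.le hab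
  have Q4 := far3 (ε := ε) (h := h) hκ hη hd.hCD hd.hx0 hηκ hd.hc2 (by linarith : 1 ≤ L)
    (by linarith : 0 < T) hH hmd hUd hd.hAd h0 hε hBd (P4.trans (by
      have hBd0 : 0 ≤ Bd := by positivity
      gcongr)) hd.s3
  set K5 := 48 / L ^ 3 * (CZ * L) + 4 * (CN * (T * L)) * tau L with hK5
  have htau : 0 ≤ tau L := by unfold tau; positivity
  have hCZ := hd.hCZ
  have hCN := hd.hCN
  have hK50 : 0 ≤ K5 := by
    have : 0 < T := by linarith
    positivity
  have hMI : ∫ t in (T + L)..(2 * T - L), rh τ H S r t ≤ 2 * m := by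
    refine le_trans ?_ hM
    rw [intervalIntegral.integral_of_le hab]
    exact setIntegral_le_integral hρi (Eventually.of_forall hρ0)
  have A5 : K5 * (∫ t in (T + L)..(2 * T - L), rh τ H S r t) ≤ ε / 4 / 100 * U := by
    calc K5 * (∫ t in (T + L)..(2 * T - L), rh τ H S r t) ≤ K5 * (2 * m) :=
          mul_le_mul_of_nonneg_left hMI hK50
      _ = (K5 * 2) * m := by ring
      _ ≤ (ε / 4 / 100 * (h * L / Real.pi)) * m := mul_le_mul_of_nonneg_right hd.s4 hm0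
      _ = _ := by rw [hUd]; ring
  have hεU : 0 ≤ ε * U := by positivity
  have hpt' : ∀ t ∈ Set.Icc (T + L) (2 * T - L),
      4 * (SS F U1 U2 (fun z => G z ^ 2) 0 t).re - k * (SS F U1 U2 Gp 0 t).re -
      (2 * ∫ α in (0 : ℝ)..1, Rf α * ‖SS F U1 U2 (fun z => G z ^ 2)
        ((1 - 4 * η) * L * α) t‖ ^ 2) - (40 * L ^ 2) * Pool.Agent.N802.U.FF F U1 U2 η A L t - K5 ≤ x t := by
    intro t _
    have h1 := hpt t
    have h2 : 48 / L ^ 3 * Zg F U1 U2 t + 4 * (NN F U1 U2 : ℝ) * tau L ≤ K5 := by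
      rw [hK5]
      have := hZ t
      gcongr
    linarith
  have cS := SS_cont2 hTw.bw F U1 U2 ((1 - 4 * η) * L)
  have cE : Continuous (fun t : ℝ => ∫ α in (0 : ℝ)..1, Rf α *
      ‖SS F U1 U2 (fun z => G z ^ 2) ((1 - 4 * η) * L * α) t‖ ^ 2) := by
    apply intervalIntegral.continuous_parametric_intervalIntegral_of_continuous'
    exact (Rf_cont.comp continuous_snd).mul (cS.norm.pow 2)
  have hfin := asm hab hρ0
    ((hρc.mul (Complex.continuous_re.comp (SS_cont0 hTw.bw F U1 U2))).intervalIntegrable _ _)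
    ((hρc.mul (Complex.continuous_re.comp (SS_cont0 hTw.bwp F U1 U2))).intervalIntegrable _ _)
    ((hρc.mul (continuous_const.mul cE)).intervalIntegrable _ _)
    (FF_int hρc η A L _ _) ix (hρc.intervalIntegrable _ _) hpt'
  refine le_trans ?_ hfin
  exact hnum _ _ _ _ _ _ hU A1 A2 A3 (Q4.trans (by linarith)) (A5.trans (by linarith))

end Pool.Agent.N802.X
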