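import Pool.Agent.N802.X.Cps
import Pool.Agent.N802.U.Count2
import Pool.Agent.N845.U2.Sh0

/-! # Distinct zeros: the inequality at one point and the weighted count -/

open Complex Filter Topology Set MeasureTheory
open scoped BigOperators ComplexConjugate

namespace Pool.Agent.N802.X

open H370 TC TH803UC Pool.Agent.N802.U Pool.Agent.N802 Pool.Agent.N845.U2

section

variable {F : ℂ → ℂ} (hF : GoodL F) {U1 U2 : ℝ} (hU : 1 ≤ U1) {η L h A : ℝ} {G : ℂ → ℂ}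
    {w : ℝ → ℂ} {Gp : ℂ → ℂ} {gp : ℝ → ℂ} (hT : Two η L h A G w Gp gp) (hη : 0 < η)
    (hη1 : η ≤ 1 / 10) (hL : 100 ≤ L) (hA : Real.log L ≤ A) (hhL : h ≤ L)

include hF hU hT hη hη1 hL hA in
/-- the sum of the costs -/
lemma costs (t : ℝ) : ∑ s ∈ Zf F U1 U2, (mult F s : ℝ) * cost G A L h t s ≤
      32 / L ^ 3 * Zg F U1 U2 t + (NN F U1 U2 : ℝ) * tau L + 28 * L ^ 2 * FF F U1 U2 η A L t := by
  classical
  have hNN : (NN F U1 U2 : ℝ) = ∑ s ∈ Zf F U1 U2, (mult F s : ℝ) := by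
    rw [NN_eq hF hU]; push_cast; rfl
  rw [← sum_FF hF hU A L η t (28 * L ^ 2), hNN]
  unfold Zg
  rw [Finset.mul_sum, Finset.sum_mul, ← Finset.sum_add_distrib, ← Finset.sum_add_distrib]
  refine Finset.sum_le_sum fun s hs => ?_
  have hm : (0 : ℝ) ≤ mult F s := Nat.cast_nonneg _
  have h2 := mul_le_mul_of_nonneg_left (cost_le hF hU hT hη hη1 hL hA t hs) hm
  refine h2.trans (le_of_eq ?_)
  ring

include hF hU hT hη hη1 hL hA hhL in
/-- the number of zeros near `t` -/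
lemma na_le (t : ℝ) : na F U1 U2 h t ≤ 1 / (1 - η) * (SS F U1 U2 Gp 0 t).re +
    (12 / L ^ 3 * Zg F U1 U2 t + 2 * (NN F U1 U2 : ℝ) * tau L + 6 * L * FF F U1 U2 η A L t) := by
  have h2 : (1 - η) * na F U1 U2 h t ≤ (SS F U1 U2 Gp 0 t).re + (4 / L ^ 3 * Zg F U1 U2 t +
      (NN F U1 U2 : ℝ) * tau L + 3 * L * FF F U1 U2 η A L t) := by
    have := na_point (U1 := U1) (U2 := U2) hF hU hT hη hη1 hL hA hhL t
    linarith
  have hη2 : 0 < 1 - η := by linarith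
  have hz0 := Zg_nonneg F U1 U2 t
  have hL0 : 0 < L := by linarith
  have hFF0 : 0 ≤ FF F U1 U2 η A L t := by
    unfold Pool.Agent.N802.U.FF
    exact Finset.sum_nonneg fun s _ => by split_ifs <;> positivity
  have hNN0 : (0 : ℝ) ≤ NN F U1 U2 := Nat.cast_nonneg _
  have hτ : 0 ≤ tau L := by unfold tau; positivity
  set E := 4 / L ^ 3 * Zg F U1 U2 t + (NN F U1 U2 : ℝ) * tau L + 3 * L * FF F U1 U2 η A L t with hE
  have hE0 : 0 ≤ E := by positivity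
  have h3 : na F U1 U2 h t ≤ 1 / (1 - η) * ((SS F U1 U2 Gp 0 t).re + E) := by
    rw [div_mul_eq_mul_div, le_div_iff₀ hη2]
    linarith
  have h29 : 1 / (1 - η) ≤ 2 := by
    rw [div_le_iff₀ hη2]
    linarith
  have h4 : 1 / (1 - η) * E ≤ 2 * E := mul_le_mul_of_nonneg_right h29 hE0
  have e3 : 1 / (1 - η) * ((SS F U1 U2 Gp 0 t).re + E) = 1 / (1 - η) * (SS F U1 U2 Gp 0 t).re +
      1 / (1 - η) * E := by ring
  rw [e3] at h3
  have e4 : 2 * E = 8 / L ^ 3 * Zg F U1 U2 t + 2 * (NN F U1 U2 : ℝ) * tau L +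
      6 * L * FF F U1 U2 η A L t := by rw [hE]; ring
  have h5 : 8 / L ^ 3 * Zg F U1 U2 t ≤ 12 / L ^ 3 * Zg F U1 U2 t := by
    gcongr
    norm_num
  linarith

include hF hU hT hη hη1 hL hA hhL in
/-- the inequality at one point, for distinct zeros -/
theorem point2 (hh : 0 ≤ h) {Λ : ℝ} (hΛ : 0 ≤ Λ) (hΛL : Λ ≤ L) (t : ℝ) :
    4 * (SS F U1 U2 (fun z => G z ^ 2) 0 t).re - 1 / (1 - η) * (SS F U1 U2 Gp 0 t).re -
      2 * (∫ α in (0 : ℝ)..1, Rf α * ‖SS F U1 U2 (fun z => G z ^ 2) (Λ * α) t‖ ^ 2) -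
      40 * L ^ 2 * FF F U1 U2 η A L t - (48 / L ^ 3 * Zg F U1 U2 t + 4 * (NN F U1 U2 : ℝ) * tau L) ≤
      2 * x2 F U1 U2 h t := by
  have hL0 : 0 < L := by linarith
  have hA0 : 0 ≤ A := le_trans (Real.log_nonneg (by linarith)) hA
  have hc := count2 hF (U2 := U2) hU hT.cj hT.le1 (ℓ := L) (A := A) (h := h) (t := t) hΛ hΛL hA0 hh
  have h1 := costs (U1 := U1) (U2 := U2) hF hU hT hη hη1 hL hA t
  have h2 := na_le (U1 := U1) (U2 := U2) hF hU hT hη hη1 hL hA hhL t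
  have hz0 := Zg_nonneg F U1 U2 t
  have hFF0 : 0 ≤ FF F U1 U2 η A L t := by
    unfold Pool.Agent.N802.U.FF
    exact Finset.sum_nonneg fun s _ => by split_ifs <;> positivity
  have hNN0 : (0 : ℝ) ≤ NN F U1 U2 := Nat.cast_nonneg _
  have hτ : 0 ≤ tau L := by unfold tau; positivity
  have h5 : 6 * L * FF F U1 U2 η A L t ≤ 12 * L ^ 2 * FF F U1 U2 η A L t := by
    apply mul_le_mul_of_nonneg_right _ hFF0
    nlinarith
  have h6 : 32 / L ^ 3 * Zg F U1 U2 t + 12 / L ^ 3 * Zg F U1 U2 t ≤ 48 / L ^ 3 * Zg F U1 U2 t := by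
    have : 0 ≤ 1 / L ^ 3 * Zg F U1 U2 t := by positivity
    have e : ∀ k : ℝ, k / L ^ 3 * Zg F U1 U2 t = k * (1 / L ^ 3 * Zg F U1 U2 t) := fun k => by ring
    rw [e 32, e 12, e 48]
    linarith
  have h7 : 0 ≤ (NN F U1 U2 : ℝ) * tau L := by positivity
  linarith

end

/-- the weights of the distinct zeros -/
noncomputable def cd (s : ℂ) : ℝ := if s.re ≤ 1 / 2 then 1 else 0

lemma x2_cnt (F : ℂ → ℂ) (U1 U2 h t : ℝ) : x2 F U1 U2 h t = cnt (Zf F U1 U2) cd h t := by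
  classical
  unfold x2 cnt cd
  rw [Finset.card_filter]
  push_cast
  refine Finset.sum_congr rfl fun s _ => ?_
  by_cases h1 : |s.im - t| ≤ h <;> simp [h1]

lemma final_num2 {U ε η cM P1 P2 P3 P4 P5 : ℝ} (hU : 0 ≤ U) (hε : 0 < ε) (hε1 : ε < 1) (hη : 0 < η)
    (hηε : η ≤ ε / 100) (hcM : cM ≤ 1.3275)
    (h1 : (1 - η - ε / 50) * U ≤ P1) (h2 : P2 ≤ (1 + η + ε / 50) * U)
    (h3 : P3 ≤ ((1 + η) * (cM + ε / 10) + ε / 100) * U) (h4 : P4 ≤ ε / 100 * U)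
    (h5 : P5 ≤ ε / 100 * U) :
    (1.6725 - ε) * U ≤ 4 * P1 - 1 / (1 - η) * P2 - P3 - P4 - P5 := by
  have hη1 : η < 1 / 100 := by linarith
  have a2 : 1 / (1 - η) * P2 ≤ (1 + 0.05 * ε) * U := by
    have a3 : 1 / (1 - η) * (1 + η + ε / 50) ≤ 1 + 0.05 * ε := by
      rw [div_mul_eq_mul_div, div_le_iff₀ (by linarith)]
      nlinarith
    calc 1 / (1 - η) * P2 ≤ 1 / (1 - η) * ((1 + η + ε / 50) * U) := by
          apply mul_le_mul_of_nonneg_left h2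
          apply div_nonneg (by norm_num)
          linarith
      _ = (1 / (1 - η) * (1 + η + ε / 50)) * U := by ring
      _ ≤ _ := mul_le_mul_of_nonneg_right a3 hU
  have b3 : (1 + η) * (cM + ε / 10) ≤ 1.3275 + 0.12 * ε := by
    calc (1 + η) * (cM + ε / 10) ≤ (1 + η) * (1.3275 + ε / 10) := by
          apply mul_le_mul_of_nonneg_left _ (by linarith)
          linarith
      _ ≤ _ := by nlinarith
  have a3 : P3 ≤ (1.3275 + 0.13 * ε) * U := by
    refine h3.trans (mul_le_mul_of_nonneg_right ?_ hU)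
    linarith
  have a1 : (4 - 0.12 * ε) * U ≤ 4 * P1 := by
    have : (1 - 0.03 * ε) * U ≤ P1 := by
      refine le_trans (mul_le_mul_of_nonneg_right ?_ hU) h1
      linarith
    linarith
  nlinarith

end Pool.Agent.N802.X
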